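import Mathlib

/-
The Ruzsa numbers satisfy R 36 >= 6 and R 37 <= 4, so consecutive Ruzsa numbers can differ by two.

R 37 <= 4: the quartic residues modulo 37 together with 0.
R 36 >= 6: with k the size of A and t the number of ordered pairs of A at difference 18, the additive
energy E = sum of sigma^2 = sum of delta^2 is at most 6k^2 - 288 + 3(k - t) when 1 <= sigma <= 5
(sigma is odd at no more than k - t residues), while (delta - 2)(delta - 3) >= 0 forces k >= 11 and
(delta - 3)(delta - 4) >= 0 forces k <= 10.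
-/

namespace Pool.Agent.Results.MP_344049_nt.Jump36

open Finset

/-- The number of ordered pairs `(x, y)` in `A × A` with `x + y = n` in `ZMod m`. -/
def sigma (m : ℕ) (A : Finset (ZMod m)) (n : ZMod m) : ℕ :=
  ((A ×ˢ A).filter (fun p => p.1 + p.2 = n)).card

/-- The Ruzsa number: the least positive `r` for which some `A` in `ZMod m` has
`1 ≤ sigma m A n ≤ r` for every `n`. -/
noncomputable def ruzsa (m : ℕ) : ℕ :=
  sInf {r : ℕ | 0 < r ∧ ∃ A : Finset (ZMod m), ∀ n : ZMod m, 1 ≤ sigma m A n ∧ sigma m A n ≤ r}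

theorem even_sum {α : Type} [Fintype α] (g : α → α) (F : α → ℤ) (hg : ∀ x, g (g x) = x)
    (hF : ∀ x, F (g x) = F x) (hne : ∀ x, F x ≠ 0 → g x ≠ x) : Even (∑ x, F x) := by
  rw [← ZMod.intCast_eq_zero_iff_even, Int.cast_sum]
  refine Finset.sum_involution (fun x _ => g x) ?_ ?_ (fun _ _ => Finset.mem_univ _)
    (fun x _ => hg x)
  · intro x _
    rw [hF x]
    exact CharTwo.add_self_eq_zero _
  · intro x _ hx
    refine hne x ?_
    intro h0
    exact hx (by rw [h0]; simp)

theorem energy (f : ZMod 36 → ℤ) :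
    ∑ n, (∑ x, f x * f (n - x)) ^ 2 = ∑ d, (∑ x, f x * f (x + d)) ^ 2 := by
  have h1 : ∑ n, (∑ x, f x * f (n - x)) ^ 2
      = ∑ x, ∑ y, ∑ n, f x * f (n - x) * (f y * f (n - y)) := by
    simp only [sq, Finset.sum_mul_sum]
    rw [Finset.sum_comm]
    refine Finset.sum_congr rfl (fun x _ => ?_)
    rw [Finset.sum_comm]
  have h2 : ∑ d, (∑ x, f x * f (x + d)) ^ 2
      = ∑ x, ∑ d, ∑ z, f x * f (x + d) * (f z * f (z + d)) := by
    simp only [sq, Finset.sum_mul_sum]
    rw [Finset.sum_comm]
  rw [h1, h2]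
  refine Finset.sum_congr rfl (fun x _ => ?_)
  rw [← Equiv.sum_comp (Equiv.addLeft x)]
  refine Finset.sum_congr rfl (fun d _ => ?_)
  rw [← Equiv.sum_comp (Equiv.addRight (x + d))]
  refine Finset.sum_congr rfl (fun z _ => ?_)
  simp only [Equiv.coe_addLeft, Equiv.coe_addRight]
  have e1 : z + (x + d) - x = z + d := by ring
  have e2 : z + (x + d) - (x + d) = z := by ring
  rw [e1, e2]
  ring

theorem sum_sigma (f : ZMod 36 → ℤ) : ∑ n, ∑ x, f x * f (n - x) = (∑ x, f x) ^ 2 := by
  rw [Finset.sum_comm, sq, Finset.sum_mul]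
  refine Finset.sum_congr rfl (fun x _ => ?_)
  rw [← Finset.mul_sum, ← Equiv.sum_comp (Equiv.addRight x)]
  simp

theorem sum_delta (f : ZMod 36 → ℤ) : ∑ d, ∑ x, f x * f (x + d) = (∑ x, f x) ^ 2 := by
  rw [Finset.sum_comm, sq, Finset.sum_mul]
  refine Finset.sum_congr rfl (fun x _ => ?_)
  rw [← Finset.mul_sum, ← Equiv.sum_comp (Equiv.addLeft x) f]
  simp

theorem parity (f : ZMod 36 → ℤ) (hf : ∀ x, f x * f x = f x) (n : ZMod 36) :
    Even ((∑ x, f x * f (n - x)) - ∑ x, if x + x = n then f x * (1 - f (x + 18)) else 0) := by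
  have h36 : (18 : ZMod 36) + 18 = 0 := by decide
  have h18 : (18 : ZMod 36) ≠ 0 := by decide
  have ha : Even (∑ x, if x + x = n then 0 else f x * f (n - x)) := by
    refine even_sum (fun x => n - x) _ (fun x => by ring) (fun x => ?_) (fun x hx => ?_)
    · have e : n - (n - x) = x := by ring
      by_cases h : x + x = n
      · have h' : (n - x) + (n - x) = n := by linear_combination -h
        simp [h, h']
      · have h' : ¬ (n - x) + (n - x) = n := fun h'' => h (by linear_combination -h'')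
        simp only [h, h', if_false, e]
        ring
    · intro h
      apply hx
      have h' : x + x = n := by linear_combination -h
      simp [h']
  have hb : Even (∑ x, if x + x = n then f x * f (x + 18) else 0) := by
    refine even_sum (fun x => x + 18) _ (fun x => by linear_combination h36) (fun x => ?_)
      (fun x _ => ?_)
    · have e : x + 18 + 18 = x := by linear_combination h36
      by_cases h : x + x = n
      · have h' : (x + 18) + (x + 18) = n := by linear_combination h + h36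
        simp only [h, h', if_true, e]
        ring
      · have h' : ¬ (x + 18) + (x + 18) = n := fun h'' => h (by linear_combination h'' - h36)
        simp only [h, h', if_false]
    · intro h
      exact h18 (by linear_combination h)
  have hs : (∑ x, f x * f (n - x)) - ∑ x, (if x + x = n then f x * (1 - f (x + 18)) else 0)
      = (∑ x, if x + x = n then 0 else f x * f (n - x))
        + ∑ x, if x + x = n then f x * f (x + 18) else 0 := by
    rw [← Finset.sum_sub_distrib, ← Finset.sum_add_distrib]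
    refine Finset.sum_congr rfl (fun x _ => ?_)
    by_cases h : x + x = n
    · have e : n - x = x := by linear_combination -h
      simp only [h, if_true, e, hf]
      ring
    · simp only [h, if_false]
      ring
  rw [hs]
  exact ha.add hb

theorem point (s w : ℤ) (h1 : 1 ≤ s) (h5 : s ≤ 5) (hw : 0 ≤ w) (he : Even (s - w)) :
    s ^ 2 ≤ 6 * s - 8 + 3 * w := by
  obtain ⟨c, hc⟩ := he
  interval_cases s <;> omega

theorem consec (a j : ℤ) : 0 ≤ (a - j) * (a - j - 1) := by
  rcases le_or_gt (a - j) 0 with h | h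
  · exact mul_nonneg_of_nonpos_of_nonpos h (by omega)
  · exact mul_nonneg (by omega) (by omega)

theorem lower (δ : ZMod 36 → ℤ) (j : ℤ) :
    (δ 0 - j) * (δ 0 - j - 1) + (δ 18 - j) * (δ 18 - j - 1)
      ≤ (∑ d, δ d ^ 2) - (2 * j + 1) * (∑ d, δ d) + 36 * (j * (j + 1)) := by
  have h18 : (0 : ZMod 36) ≠ 18 := by decide
  have h := Finset.sum_le_sum_of_subset_of_nonneg
    (f := fun d => (δ d - j) * (δ d - j - 1)) (Finset.subset_univ {(0 : ZMod 36), 18})
    (fun d _ _ => consec (δ d) j)
  rw [Finset.sum_pair h18] at h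
  refine h.trans (le_of_eq ?_)
  have hc : ∑ _d : ZMod 36, j * (j + 1) = 36 * (j * (j + 1)) := by
    rw [Finset.sum_const, Finset.card_univ, ZMod.card]
    simp
  rw [Finset.mul_sum, ← hc, ← Finset.sum_sub_distrib, ← Finset.sum_add_distrib]
  refine Finset.sum_congr rfl (fun d _ => ?_)
  ring

theorem no_five (f : ZMod 36 → ℤ) (hf : ∀ x, f x = 0 ∨ f x = 1)
    (h : ∀ n, 1 ≤ ∑ x, f x * f (n - x) ∧ ∑ x, f x * f (n - x) ≤ 5) : False := by
  have hf2 : ∀ x, f x * f x = f x := fun x => by rcases hf x with e | e <;> simp [e]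
  have hw : ∀ n : ZMod 36, 0 ≤ ∑ x, if x + x = n then f x * (1 - f (x + 18)) else 0 := by
    intro n
    refine Finset.sum_nonneg (fun x _ => ?_)
    split_ifs
    · rcases hf x with e | e <;> rcases hf (x + 18) with e' | e' <;> simp [e, e']
    · exact le_rfl
  have hup := Finset.sum_le_sum (s := Finset.univ)
    (fun n _ => point _ _ (h n).1 (h n).2 (hw n) (parity f hf2 n))
  have hsw : ∑ n : ZMod 36, ∑ x, (if x + x = n then f x * (1 - f (x + 18)) else 0)
      = (∑ x, f x) - ∑ x, f x * f (x + 18) := by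
    rw [Finset.sum_comm, ← Finset.sum_sub_distrib]
    refine Finset.sum_congr rfl (fun x _ => ?_)
    rw [Finset.sum_ite_eq]
    simp only [Finset.mem_univ, if_true]
    ring
  have hc : ∑ _d : ZMod 36, (8 : ℤ) = 288 := by
    rw [Finset.sum_const, Finset.card_univ, ZMod.card]
    simp
  rw [Finset.sum_add_distrib, Finset.sum_sub_distrib, ← Finset.mul_sum, ← Finset.mul_sum, hsw, hc,
    sum_sigma, energy] at hup
  have h2 := lower (fun d => ∑ x, f x * f (x + d)) 2
  have h3 := lower (fun d => ∑ x, f x * f (x + d)) 3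
  simp only [add_zero, hf2, sum_delta] at h2 h3
  generalize (∑ d, (∑ x, f x * f (x + d)) ^ 2) = E at hup h2 h3
  generalize (∑ x, f x * f (x + 18)) = t at hup h2 h3
  generalize (∑ x, f x) = k at hup h2 h3
  have hk : 11 ≤ k := by
    have : 83 ≤ 8 * k := by nlinarith [sq_nonneg (t - 1)]
    omega
  nlinarith [sq_nonneg (t - 2), mul_nonneg (sub_nonneg.2 hk) (sub_nonneg.2 hk)]

theorem sigma_eq (A : Finset (ZMod 36)) (n : ZMod 36) :
    (sigma 36 A n : ℤ)
      = ∑ x, (if x ∈ A then (1 : ℤ) else 0) * (if n - x ∈ A then (1 : ℤ) else 0) := by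
  have hc : sigma 36 A n = (Finset.univ.filter (fun x => x ∈ A ∧ n - x ∈ A)).card := by
    unfold sigma
    refine Finset.card_bij (fun p _ => p.1) ?_ ?_ ?_
    · intro p hp
      simp only [Finset.mem_filter, Finset.mem_product] at hp
      have e : n - p.1 = p.2 := by linear_combination -hp.2
      simp [e, hp.1.1, hp.1.2]
    · intro p hp q hq e
      simp only [Finset.mem_filter, Finset.mem_product] at hp hq
      have e1 : p.1 = q.1 := e
      exact Prod.ext e1 (by linear_combination hp.2 - hq.2 - e1)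
    · intro x hx
      simp only [Finset.mem_filter, Finset.mem_univ, true_and] at hx
      exact ⟨(x, n - x), by simp [hx.1, hx.2], rfl⟩
  rw [hc, Finset.card_filter]
  push_cast
  refine Finset.sum_congr rfl (fun x _ => ?_)
  by_cases h1 : x ∈ A <;> by_cases h2 : n - x ∈ A <;> simp [h1, h2]

theorem six_le : 6 ≤ ruzsa 36 := by
  have hne : {r : ℕ | 0 < r ∧ ∃ A : Finset (ZMod 36),
      ∀ n : ZMod 36, 1 ≤ sigma 36 A n ∧ sigma 36 A n ≤ r}.Nonempty :=
    ⟨6, by norm_num, {0, 9, 15, 16, 18, 20, 22, 23, 27, 28, 35}, by decide +kernel⟩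
  obtain ⟨_, A, hA⟩ := Nat.sInf_mem hne
  by_contra hlt
  have hle : ruzsa 36 ≤ 5 := by omega
  refine no_five (fun x => if x ∈ A then (1 : ℤ) else 0) (fun x => ?_) (fun n => ?_)
  · by_cases hx : x ∈ A <;> simp [hx]
  · rw [← sigma_eq]
    have h1 := (hA n).1
    have h2 : sigma 36 A n ≤ 5 := (hA n).2.trans hle
    exact ⟨by exact_mod_cast h1, by exact_mod_cast h2⟩

theorem le_four : ruzsa 37 ≤ 4 :=
  Nat.sInf_le ⟨by norm_num, {0, 1, 7, 9, 10, 12, 16, 26, 33, 34}, by decide +kernel⟩

theorem result : 6 ≤ ruzsa 36 ∧ ruzsa 37 ≤ 4 ∧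
    ∃ m : ℕ, 0 < m ∧ 2 ≤ |(ruzsa (m + 1) : ℤ) - (ruzsa m : ℤ)| := by
  refine ⟨six_le, le_four, 36, by norm_num, ?_⟩
  have h1 := six_le
  have h2 : ruzsa (36 + 1) ≤ 4 := le_four
  rw [le_abs]
  right
  omega

end Pool.Agent.Results.MP_344049_nt.Jump36
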